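import Pool.Agent.H965.K3.J
import Pool.Graph.R_pool_sql_team_seeded_3dad9d7b.NH38.Fork.UG

/-!
Critical bond percolation on `ℤ²` (`p = 1/2`) in the forked channels, a family of domains with two
real parameters: a half-infinite strip (going down) of width `α + γ + β`, with two half-infinite
strips (arms) of widths `α` (flush on the left) and `β` (flush on the right) on top of it, separated by
a slit of width `γ > 0`. The boundary consists of five arcs: left wall, inner wall of the left arm,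
ledge (bottom of the slit), inner wall of the right arm, right wall. We study the clusters of the
inner wall of the right arm:

* Cardy's formula for the open paths to the union of the left wall and of the inner wall of the
  left arm; exact value on the lattice;
* the joint law, in the scaling limit, of the two crossing events: a path to the left wall, a path
  to the inner wall of the left arm.

Coordinates: the vertex `(u,v)` of `ℤ²` at mesh `δ` sits at `X + iY`, `X = δ (u - v)`,
`Y = δ (u + v)` (rotation by 45 degrees). The column of a point is `u - v`, its height `u + v`.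
-/

namespace Pool.Agent.Results.MP_35f495_pr.JointCardyFork

open MeasureTheory Filter Topology Set

/-- edges of `ℤ²`: `(u,v,false)` joins `(u,v)` and `(u+1,v)`; `(u,v,true)` joins `(u,v)` and
`(u,v+1)`. -/
abbrev Edge := ℤ × ℤ × Bool

/-- configurations (`true` = open) -/
abbrev Conf := Edge → Bool

/-- `x` and `y` are the two ends of an open edge -/
def OpenAdj (ω : Conf) (x y : ℤ × ℤ) : Prop :=
  (y = (x.1 + 1, x.2) ∧ ω (x.1, x.2, false) = true) ∨
  (x = (y.1 + 1, y.2) ∧ ω (y.1, y.2, false) = true) ∨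
  (y = (x.1, x.2 + 1) ∧ ω (x.1, x.2, true) = true) ∨
  (x = (y.1, y.2 + 1) ∧ ω (y.1, y.2, true) = true)

/-- bond percolation at `p = 1/2`: independent fair coins on the edges -/
noncomputable def perc : Measure Conf :=
  Measure.infinitePi (fun _ : Edge => (PMF.uniformOfFintype Bool).toMeasure)

/-- The column of the vertex `(u,v)` is `u - v`, its height is `u + v`. Open edges of the forked
channel: both ends have their column in `[-a, m+b]`; the edges with both ends at height `≥ 0` and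
both ends in the columns `[0, m]` (the slit) are removed. -/
def FAdj (a m b : ℕ) (ω : Conf) (x y : ℤ × ℤ) : Prop :=
  OpenAdj ω x y ∧ -(a:ℤ) ≤ x.1 - x.2 ∧ x.1 - x.2 ≤ ((m+b : ℕ) : ℤ) ∧
    -(a:ℤ) ≤ y.1 - y.2 ∧ y.1 - y.2 ≤ ((m+b : ℕ) : ℤ) ∧
    ¬ (0 ≤ x.1 + x.2 ∧ 0 ≤ y.1 + y.2 ∧ 0 ≤ x.1 - x.2 ∧ x.1 - x.2 ≤ m ∧
      0 ≤ y.1 - y.2 ∧ y.1 - y.2 ≤ m)

/-- the left wall: column `-a` -/
def LeftWall (a : ℕ) (x : ℤ × ℤ) : Prop := x.1 - x.2 = -(a:ℤ)

/-- the inner wall of the left arm: column `0`, height `≥ 0` -/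
def InnerLeft (x : ℤ × ℤ) : Prop := x.1 - x.2 = 0 ∧ 0 ≤ x.1 + x.2

/-- the inner wall of the right arm: column `m`, height `≥ 0` -/
def InnerRight (m : ℕ) (x : ℤ × ℤ) : Prop := x.1 - x.2 = m ∧ 0 ≤ x.1 + x.2

/-- there is an open path of the forked channel from a vertex of `P` to a vertex of `Q` -/
def Joined (a m b : ℕ) (P Q : ℤ × ℤ → Prop) : Set Conf :=
  {ω | ∃ x y : ℤ × ℤ, P x ∧ Q y ∧ Relation.ReflTransGen (FAdj a m b ω) x y}

/-- the same in the bounded forked domain (all heights in `[-H,H]`) -/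
def JoinedH (a m b H : ℕ) (P Q : ℤ × ℤ → Prop) : Set Conf :=
  {ω | ∃ x y : ℤ × ℤ, P x ∧ |x.1 + x.2| ≤ H ∧ Q y ∧ |y.1 + y.2| ≤ H ∧
    Relation.ReflTransGen (fun p r => FAdj a m b ω p r ∧ |p.1 + p.2| ≤ H ∧ |r.1 + r.2| ≤ H) x y}

/-- the inner wall of the right arm is joined to the left wall -/
def ToWall (a m b : ℕ) : Set Conf := Joined a m b (LeftWall a) (InnerRight m)

/-- the inner wall of the right arm is joined to the inner wall of the left arm -/
def ToInner (a m b : ℕ) : Set Conf := Joined a m b InnerLeft (InnerRight m)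

/-- `ToWall` in the bounded forked domain -/
def ToWallH (a m b H : ℕ) : Set Conf := JoinedH a m b H (LeftWall a) (InnerRight m)

/-- `ToInner` in the bounded forked domain -/
def ToInnerH (a m b H : ℕ) : Set Conf := JoinedH a m b H InnerLeft (InnerRight m)

/-- Cardy's function: the normalised primitive of `(t(1-t))^(-2/3)` -/
noncomputable def cardy (x : ℝ) : ℝ :=
  (∫ t in (0:ℝ)..x, (t*(1-t))^(-(2:ℝ)/3)) / ∫ t in (0:ℝ)..1, (t*(1-t))^(-(2:ℝ)/3)

/-- the polynomials `s_n` -/
noncomputable def s : ℕ → Polynomial ℚ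
  | 0 => 2
  | 1 => 3
  | n+2 => Polynomial.C (1 / (3*(n:ℚ)+5)) *
      (Polynomial.C (6*(n:ℚ)+9) * (if Even n then 1 + Polynomial.X else 1) * s (n+1) -
        Polynomial.C (3*(n:ℚ)+4) * s n)

/-- the numbers `k_n` -/
noncomputable def k (n : ℕ) : ℚ := ∏ i ∈ Finset.range n, ((i:ℚ) + 4/3) / (i + 2/3)

/-- the polynomials `d_n`, `n ≥ 1` -/
noncomputable def d (n : ℕ) : Polynomial ℚ :=
  Polynomial.C (1 / (k (n+1) - k (n-1))) * (s (n+1) - s (n-1))

/-- the weights of the exact formula, `N` = width of the lower strip -/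
noncomputable def wt (N j : ℕ) : ℚ :=
  1/3 * (∏ i ∈ Finset.range ((N-1)/2), (((i:ℚ) + 1/2) * (i + 5/3) / ((i + 5/6) * (i + 2)))) *
  ∏ i ∈ Finset.range j, (4 * (((i:ℚ) + 1/3) * (i + 2/3)) / (((N:ℚ) - 2 - 2*i) * (N + 3 + 2*i)))

/-- the forked channel: the strip `-α < X < γ + β` without the slit `{0 ≤ X ≤ γ, Y ≥ 0}` -/
def Dom (α γ β : ℝ) : Set ℂ := {w | -α < w.re ∧ w.re < γ + β ∧ (0 ≤ w.re → w.re ≤ γ → w.im < 0)}

/-- `f` is an orientation reversing conformal map of the upper half-plane onto the forked channel,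
with the boundary correspondence: left wall, inner wall of the left arm, left corner of the slit,
ledge (bottom of the slit), right corner of the slit, inner wall of the right arm, right wall =
`(-∞,0)`, `(0,x)`, `x`, `(x,x')`, `x'`, `(x',1)`, `(1,∞)` (`0`, `1` and `∞` correspond to the ends
of the left arm, of the right arm and of the lower strip). -/
structure Uniformizes (α γ β x x' : ℝ) (f : ℂ → ℂ) : Prop where
  /-- the complex conjugate of `f` is holomorphic in the upper half-plane -/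
  holo : DifferentiableOn ℂ (fun z => (starRingEnd ℂ) (f z)) {z | 0 < z.im}
  /-- `f` is a bijection of the upper half-plane onto the forked channel -/
  bij : BijOn f {z | 0 < z.im} (Dom α γ β)
  /-- `f` is continuous up to the boundary (without `0` and `1`) -/
  cont : ContinuousOn f {z : ℂ | 0 ≤ z.im ∧ z ≠ 0 ∧ z ≠ 1}
  /-- `(-∞,0)` is mapped to the left wall -/
  leftWall : BijOn (fun t : ℝ => f t) (Iio 0) {w | w.re = -α}
  /-- `(0,x)` is mapped to the inner wall of the left arm -/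
  innerWall : BijOn (fun t : ℝ => f t) (Ioo 0 x) {w | w.re = 0 ∧ 0 < w.im}
  /-- `x` is mapped to the left corner -/
  corner : f (x : ℂ) = 0
  /-- `(x,x')` is mapped to the ledge -/
  ledge : BijOn (fun t : ℝ => f t) (Ioo x x') {w | w.im = 0 ∧ 0 < w.re ∧ w.re < γ}
  /-- `x'` is mapped to the right corner -/
  corner' : f (x' : ℂ) = (γ : ℂ)
  /-- `(x',1)` is mapped to the inner wall of the right arm -/
  innerWall' : BijOn (fun t : ℝ => f t) (Ioo x' 1) {w | w.re = γ ∧ 0 < w.im}
  /-- `(1,∞)` is mapped to the right wall -/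
  rightWall : BijOn (fun t : ℝ => f t) (Ioi 1) {w | w.re = γ + β}

theorem s_eq (n : ℕ) : s n = Pool.Agent.NH38.Fork.sv n := by
  unfold Pool.Agent.NH38.Fork.sv
  induction n using Nat.twoStepInduction with
  | zero =>
    rw [s, Pool.Agent.NH38.Fork.pv]
    exact (map_ofNat Polynomial.C 2).symm
  | one =>
    rw [s, Pool.Agent.NH38.Fork.pv]
    exact (map_ofNat Polynomial.C 3).symm
  | more n ih1 ih2 =>
    rw [s, ih1, ih2, Pool.Agent.NH38.Fork.pv]

theorem d_eq (n : ℕ) : d (n+1) = Pool.Agent.H965.K3.dv (n+1) := by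
  rw [d, Pool.Agent.H965.K3.dv, s_eq, s_eq]
  rfl

theorem toWall_eq (a m b : ℕ) : ToWall a m b = Pool.Agent.H965.K3.CrossL a m b := by
  ext ω
  constructor
  · rintro ⟨x, y, h1, ⟨h2, h3⟩, h4⟩
    exact ⟨x, y, h1, h2, h3, h4⟩
  · rintro ⟨x, y, h1, h2, h3, h4⟩
    exact ⟨x, y, h1, ⟨h2, h3⟩, h4⟩

theorem toInner_eq (a m b : ℕ) : ToInner a m b = Pool.Agent.H966.T1.FCross1 a m b := by
  ext ω
  constructor
  · rintro ⟨x, y, ⟨h1, h1'⟩, ⟨h2, h3⟩, h4⟩
    exact ⟨x, y, h1, h1', h2, h3, h4⟩
  · rintro ⟨x, y, h1, h1', h2, h3, h4⟩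
    exact ⟨x, y, ⟨h1, h1'⟩, ⟨h2, h3⟩, h4⟩

theorem toWallH_eq (a m b H : ℕ) : ToWallH a m b H = Pool.Agent.H965.K3.CrossLH a m b H := by
  ext ω
  constructor
  · rintro ⟨x, y, h1, hx, ⟨h2, h3⟩, hy, h4⟩
    exact ⟨x, y, h1, hx, h2, h3, (le_abs_self _).trans hy, h4⟩
  · rintro ⟨x, y, h1, hx, h2, h3, hy, h4⟩
    exact ⟨x, y, h1, hx, ⟨h2, h3⟩, by rw [abs_of_nonneg h3]; exact hy, h4⟩

theorem toInnerH_eq (a m b H : ℕ) : ToInnerH a m b H = Pool.Agent.H966.T1.FCross1H a m b H := by
  ext ω
  constructor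
  · rintro ⟨x, y, ⟨h1, h1'⟩, hx, ⟨h2, h3⟩, hy, h4⟩
    exact ⟨x, y, h1, h1', (le_abs_self _).trans hx, h2, h3, (le_abs_self _).trans hy, h4⟩
  · rintro ⟨x, y, h1, h1', hx, h2, h3, hy, h4⟩
    exact ⟨x, y, ⟨h1, h1'⟩, by rw [abs_of_nonneg h1']; exact hx, ⟨h2, h3⟩,
      by rw [abs_of_nonneg h3]; exact hy, h4⟩

theorem union_eq (a m b : ℕ) :
    ToWall a m b ∪ ToInner a m b = Pool.Agent.H965.K3.Cross3 a m b := by
  rw [toWall_eq, toInner_eq, Pool.Agent.H965.K3.cross3_union]

theorem unionH_eq (a m b H : ℕ) :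
    ToWallH a m b H ∪ ToInnerH a m b H = Pool.Agent.H965.K3.Cross3H a m b H := by
  rw [toWallH_eq, toInnerH_eq, Pool.Agent.H965.K3.cross3H_union]

theorem inter_eq (a m b : ℕ) : perc.real (ToWall a m b ∩ ToInner a m b) =
    perc.real (ToWall a m b) + perc.real (ToInner a m b) -
      perc.real (ToWall a m b ∪ ToInner a m b) := by
  rw [union_eq, toWall_eq, toInner_eq]
  exact Pool.Agent.H965.K3.inter_eq a m b

theorem interH_eq (a m b H : ℕ) : perc.real (ToWallH a m b H ∩ ToInnerH a m b H) =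
    perc.real (ToWallH a m b H) + perc.real (ToInnerH a m b H) -
      perc.real (ToWallH a m b H ∪ ToInnerH a m b H) := by
  rw [unionH_eq, toWallH_eq, toInnerH_eq]
  exact Pool.Agent.H965.K3.interH_eq a m b H

/-- The clusters of the inner wall of the right arm of the forked channel.
(1) The exact probability of an open path to the union of the left wall and of the inner wall of the
left arm, for all even `a`, `m` and odd `b`.
(2) The scaling limit, for all widths. There are `0 < x < x' < 1`, given by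
`x x' = (α/(α+γ+β))²`, `(1-x)(1-x') = (β/(α+γ+β))²`, and a conformal map of the upper half-plane onto
the channel with the boundary correspondence of `Uniformizes`. The probabilities that the inner wall
of the right arm is joined to the union of the left wall and of the inner wall of the left arm, to the
first one, to the second one and to both of them tend to `cardy ((1-x')/(1-x))`, `cardy (1-x')`,
`cardy (x(1-x')/(x'(1-x)))` and to the value given by inclusion-exclusion: the arguments are the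
cross-ratios of the arcs `(-∞,x)`, `(-∞,0)`, `(0,x)` and `(x',1)`.
(3) The same limits in bounded forked domains (Jordan polygons) whose heights tend to infinity.
(4) The error for bounded forked domains, all widths. -/
theorem result :
    (∀ a m b : ℕ, Even a → 2 ≤ a → Even m → 2 ≤ m → Odd b →
      perc.real (ToWall a m b ∪ ToInner a m b) =
        ((∑ j ∈ Finset.range ((a+b+1)/2), (d a * s b).coeff j * wt (a+m+b) j : ℚ) : ℝ)) ∧
    (∀ α γ β : ℝ, 0 < α → 0 < γ → 0 < β → ∃ x x' : ℝ, 0 < x ∧ x < x' ∧ x' < 1 ∧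
      x * x' = (α / (α + γ + β))^2 ∧ (1 - x) * (1 - x') = (β / (α + γ + β))^2 ∧
      (∃ f : ℂ → ℂ, Uniformizes α γ β x x' f) ∧
      (∀ (δ : ℕ → ℝ) (a m b : ℕ → ℕ), (∀ n, 0 < δ n) → Tendsto δ atTop (𝓝 0) →
        Tendsto (fun n => δ n * a n) atTop (𝓝 α) → Tendsto (fun n => δ n * m n) atTop (𝓝 γ) →
        Tendsto (fun n => δ n * b n) atTop (𝓝 β) →
        Tendsto (fun n => perc.real (ToWall (a n) (m n) (b n) ∪ ToInner (a n) (m n) (b n))) atTop
          (𝓝 (cardy ((1 - x') / (1 - x)))) ∧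
        Tendsto (fun n => perc.real (ToWall (a n) (m n) (b n))) atTop (𝓝 (cardy (1 - x'))) ∧
        Tendsto (fun n => perc.real (ToInner (a n) (m n) (b n))) atTop
          (𝓝 (cardy (x * (1 - x') / (x' * (1 - x))))) ∧
        Tendsto (fun n => perc.real (ToWall (a n) (m n) (b n) ∩ ToInner (a n) (m n) (b n))) atTop
          (𝓝 (cardy (1 - x') + cardy (x * (1 - x') / (x' * (1 - x))) -
            cardy ((1 - x') / (1 - x))))) ∧
      (∀ (δ : ℕ → ℝ) (a m b H : ℕ → ℕ), (∀ n, 0 < δ n) → Tendsto δ atTop (𝓝 0) →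
        Tendsto (fun n => δ n * a n) atTop (𝓝 α) → Tendsto (fun n => δ n * m n) atTop (𝓝 γ) →
        Tendsto (fun n => δ n * b n) atTop (𝓝 β) → Tendsto (fun n => δ n * H n) atTop atTop →
        Tendsto (fun n => perc.real
          (ToWallH (a n) (m n) (b n) (H n) ∪ ToInnerH (a n) (m n) (b n) (H n))) atTop
          (𝓝 (cardy ((1 - x') / (1 - x)))) ∧
        Tendsto (fun n => perc.real (ToWallH (a n) (m n) (b n) (H n))) atTop
          (𝓝 (cardy (1 - x'))) ∧
        Tendsto (fun n => perc.real (ToInnerH (a n) (m n) (b n) (H n))) atTop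
          (𝓝 (cardy (x * (1 - x') / (x' * (1 - x))))) ∧
        Tendsto (fun n => perc.real
          (ToWallH (a n) (m n) (b n) (H n) ∩ ToInnerH (a n) (m n) (b n) (H n))) atTop
          (𝓝 (cardy (1 - x') + cardy (x * (1 - x') / (x' * (1 - x))) -
            cardy ((1 - x') / (1 - x)))))) ∧
    (∀ a m b H : ℕ, 1 ≤ m →
      |perc.real (ToWallH a m b H ∪ ToInnerH a m b H) -
          perc.real (ToWall a m b ∪ ToInner a m b)| ≤
        2 * (1 - (1/2 : ℝ)^188)^(H / (100 * (a + m + b)))) := by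
  have key : ∀ a m b H : ℕ, 1 ≤ m →
      |perc.real (ToWallH a m b H ∪ ToInnerH a m b H) -
          perc.real (ToWall a m b ∪ ToInner a m b)| ≤
        2 * (1 - (1/2 : ℝ)^188)^(H / (100 * (a + m + b))) := by
    intro a m b H hm
    rw [union_eq, unionH_eq]
    exact Pool.Agent.H965.K3.fork3_trunc hm H
  have keyL : ∀ a m b H : ℕ, 1 ≤ m →
      |perc.real (ToWallH a m b H) - perc.real (ToWall a m b)| ≤
        2 * (1 - (1/2 : ℝ)^188)^(H / (100 * (a + m + b))) := by
    intro a m b H hm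
    rw [toWall_eq, toWallH_eq]
    exact Pool.Agent.H965.K3.forkL_trunc hm H
  have keyI : ∀ a m b H : ℕ, 1 ≤ m →
      |perc.real (ToInnerH a m b H) - perc.real (ToInner a m b)| ≤
        2 * (1 - (1/2 : ℝ)^188)^(H / (100 * (a + m + b))) := by
    intro a m b H hm
    rw [toInner_eq, toInnerH_eq]
    exact Pool.Agent.H966.T1.fork1_trunc hm H
  refine ⟨?_, fun α γ β hα hγ hβ => ?_, key⟩
  · intro a m b ha ha2 hm hm2 hb
    obtain ⟨l, hl⟩ := hm
    obtain ⟨k', rfl⟩ : ∃ k', m = 2*k'+2 := ⟨l - 1, by omega⟩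
    rw [union_eq]
    have h1 := Pool.Agent.H965.K3.t3_Exact a k' b ha ha2 hb
    obtain ⟨r, hr⟩ := ha
    obtain ⟨t, ht⟩ := hb
    have h2 : a + b + 2 + 2*k' = 2*(r + t + 1 + k') + 1 := by omega
    have h3 : a + (2*k'+2) + b = 2*(r + t + 1 + k') + 1 := by omega
    rw [h2] at h1
    rw [h3]
    refine h1.trans ?_
    congr 1
    unfold Pool.Agent.H965.K3.FK
    rw [Finset.sum_div]
    refine Finset.sum_congr rfl fun j hj => ?_
    have hj' : j ≤ r + t + 1 + k' := by
      rw [Finset.mem_range] at hj; omega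
    obtain ⟨a', rfl⟩ : ∃ a', a = a' + 1 := ⟨a - 1, by omega⟩
    rw [d_eq, s_eq]
    have h4 := Pool.Agent.NH38.Fork.t_MJ (r + t + 1 + k') j hj'
    unfold Pool.Agent.H965.K3.cd Pool.Agent.NH38.Fork.mj wt
    have h5 : (2*(r + t + 1 + k') + 1) + 2*j + 1 = (2*(r + t + 1 + k')+1) + 2*j + 1 := rfl
    rw [h5, h4]
    unfold Pool.Agent.NH38.Fork.M0
    have h6 : (2*(r + t + 1 + k') + 1 - 1)/2 = r + t + 1 + k' := by omega
    rw [h6]
    have h7 : ∀ i : ℕ, (4 * (((i:ℚ) + 1/3) * (i + 2/3)) /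
        ((((2*(r + t + 1 + k') + 1 : ℕ) : ℚ) - 2 - 2*i) *
          (((2*(r + t + 1 + k') + 1 : ℕ) : ℚ) + 3 + 2*i))) =
        4 * (((i:ℚ) + 1/3) * (i + 2/3) /
          ((2*((r + t + 1 + k' : ℕ) : ℚ) - 1 - 2*i) * (2*((r + t + 1 + k' : ℕ) : ℚ) + 4 + 2*i))) := by
      intro i
      push_cast
      rw [mul_div_assoc]
      congr 2
      ring
    rw [Finset.prod_congr rfl fun i _ => h7 i, Finset.prod_mul_distrib, Finset.prod_const,
      Finset.card_range]
    ring
  have hN : 0 < α + γ + β := by positivity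
  set A : ℝ := (α / (α + γ + β))^2 with hA
  set B : ℝ := (β / (α + γ + β))^2 with hB
  have hr : 0 < α / (α + γ + β) := by positivity
  have hs : 0 < β / (α + γ + β) := by positivity
  have hrs : α / (α + γ + β) + β / (α + γ + β) < 1 := by
    rw [← add_div, div_lt_one hN]; linarith
  have hA0 : 0 < A := by positivity
  have hB0 : 0 < B := by positivity
  -- the discriminant
  have hd : 0 < (1 + A - B)^2 - 4*A := by
    have e : (1 + A - B)^2 - 4*A = (1 - (α / (α + γ + β) + β / (α + γ + β))) *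
        (1 + (α / (α + γ + β) + β / (α + γ + β))) *
        ((1 - (α / (α + γ + β) - β / (α + γ + β))) *
        (1 + (α / (α + γ + β) - β / (α + γ + β)))) := by
      rw [hA, hB]; ring
    rw [e]
    have h1 : 0 < 1 - (α / (α + γ + β) + β / (α + γ + β)) := by linarith
    have h2 : 0 < 1 + (α / (α + γ + β) + β / (α + γ + β)) := by linarith
    have h3 : 0 < 1 - (α / (α + γ + β) - β / (α + γ + β)) := by linarith
    have h4 : 0 < 1 + (α / (α + γ + β) - β / (α + γ + β)) := by linarith
    positivity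
  have hsq : Pool.Agent.NH38.Fork.rr A B * Pool.Agent.NH38.Fork.rr A B = (1 + A - B)^2 - 4*A :=
    Real.mul_self_sqrt hd.le
  have hrr : 0 < Pool.Agent.NH38.Fork.rr A B := Real.sqrt_pos.mpr hd
  have hprod : Pool.Agent.NH38.Fork.x1 A B * Pool.Agent.NH38.Fork.x2 A B = A := by
    unfold Pool.Agent.NH38.Fork.x1 Pool.Agent.NH38.Fork.x2; linear_combination (-1/4) * hsq
  have hprod' : (1 - Pool.Agent.NH38.Fork.x1 A B) * (1 - Pool.Agent.NH38.Fork.x2 A B) = B := by
    unfold Pool.Agent.NH38.Fork.x1 Pool.Agent.NH38.Fork.x2; linear_combination (-1/4) * hsq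
  have hlt : Pool.Agent.NH38.Fork.x1 A B < Pool.Agent.NH38.Fork.x2 A B := by
    unfold Pool.Agent.NH38.Fork.x1 Pool.Agent.NH38.Fork.x2; linarith
  have hA1 : A < 1 := by
    rw [hA]; exact pow_lt_one₀ hr.le (by linarith) two_ne_zero
  have hB1 : B < 1 := by
    rw [hB]; exact pow_lt_one₀ hs.le (by linarith) two_ne_zero
  have hx2 : 0 < Pool.Agent.NH38.Fork.x2 A B := by
    have : 0 < 1 + A - B := by linarith
    unfold Pool.Agent.NH38.Fork.x2; linarith
  have hx1 : 0 < Pool.Agent.NH38.Fork.x1 A B := by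
    by_contra hc
    push Not at hc
    have := mul_nonpos_of_nonpos_of_nonneg hc hx2.le
    linarith
  have h1x : 0 < 1 - Pool.Agent.NH38.Fork.x1 A B := by
    have : 0 < 1 - A + B := by linarith
    unfold Pool.Agent.NH38.Fork.x1; linarith
  have hx2' : Pool.Agent.NH38.Fork.x2 A B < 1 := by
    by_contra hc
    push Not at hc
    have := mul_nonpos_of_nonneg_of_nonpos h1x.le
      (by linarith : 1 - Pool.Agent.NH38.Fork.x2 A B ≤ 0)
    linarith
  -- the limits in the channels
  have main : ∀ (δ : ℕ → ℝ) (a m b : ℕ → ℕ), (∀ n, 0 < δ n) → Tendsto δ atTop (𝓝 0) →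
        Tendsto (fun n => δ n * a n) atTop (𝓝 α) → Tendsto (fun n => δ n * m n) atTop (𝓝 γ) →
        Tendsto (fun n => δ n * b n) atTop (𝓝 β) →
        Tendsto (fun n => perc.real (ToWall (a n) (m n) (b n) ∪ ToInner (a n) (m n) (b n))) atTop
          (𝓝 (cardy ((1 - Pool.Agent.NH38.Fork.x2 A B) / (1 - Pool.Agent.NH38.Fork.x1 A B)))) ∧
        Tendsto (fun n => perc.real (ToWall (a n) (m n) (b n))) atTop
          (𝓝 (cardy (1 - Pool.Agent.NH38.Fork.x2 A B))) ∧
        Tendsto (fun n => perc.real (ToInner (a n) (m n) (b n))) atTop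
          (𝓝 (cardy (Pool.Agent.NH38.Fork.x1 A B * (1 - Pool.Agent.NH38.Fork.x2 A B) /
            (Pool.Agent.NH38.Fork.x2 A B * (1 - Pool.Agent.NH38.Fork.x1 A B))))) := by
    intro δ a m b hδ hδ0 ha hm hb
    refine ⟨?_, ?_, ?_⟩
    · have h := Pool.Agent.H965.K3.t3_Lim α γ β hα hγ hβ δ a m b hδ hδ0 ha hm hb
      refine h.congr fun n => ?_
      rw [union_eq]
      rfl
    · have h := Pool.Agent.H965.K3.limL α γ β hα hγ hβ δ a m b hδ hδ0 ha hm hb
      refine h.congr fun n => ?_
      rw [toWall_eq]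
      rfl
    · have h := Pool.Agent.H966.T1.t_Lim α γ β hα hγ hβ δ a m b hδ hδ0 ha hm hb
      refine h.congr fun n => ?_
      rw [toInner_eq]
      rfl
  refine ⟨Pool.Agent.NH38.Fork.x1 A B, Pool.Agent.NH38.Fork.x2 A B, hx1, hlt, hx2', hprod, hprod',
    ?_, ?_, ?_⟩
  · obtain ⟨f, hf⟩ := Pool.Agent.NH38.Fork.t_UG α γ β hα hγ hβ
    exact ⟨f, ⟨hf.holo, hf.bij, hf.cont, hf.leftWall, hf.innerWall, hf.corner, hf.ledge,
      hf.corner', hf.innerWall', hf.rightWall⟩⟩
  · intro δ a m b hδ hδ0 ha hm hb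
    obtain ⟨l1, l2, l3⟩ := main δ a m b hδ hδ0 ha hm hb
    refine ⟨l1, l2, l3, ((l2.add l3).sub l1).congr fun n => ?_⟩
    exact (inter_eq _ _ _).symm
  · intro δ a m b H hδ hδ0 ha hm hb hH
    obtain ⟨l1, l2, l3⟩ := main δ a m b hδ hδ0 ha hm hb
    have hinv : Tendsto (fun n => (δ n)⁻¹) atTop atTop :=
      (tendsto_nhdsWithin_iff.mpr ⟨hδ0, Eventually.of_forall hδ⟩).inv_tendsto_nhdsGT_zero
    have em : ∀ᶠ n in atTop, 1 ≤ m n := by
      have : Tendsto (fun n => (m n : ℝ)) atTop atTop := by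
        refine (hinv.atTop_mul_pos hγ hm).congr fun n => ?_
        rw [← mul_assoc, inv_mul_cancel₀ (hδ n).ne', one_mul]
      filter_upwards [this.eventually_ge_atTop 1] with n hn
      exact_mod_cast hn
    -- the ratio `H / (100 (a+m+b))` tends to infinity
    have hr : Tendsto (fun n => H n / (100 * (a n + m n + b n))) atTop atTop := by
      have hs : Tendsto (fun n => δ n * ((a n : ℝ) + m n + b n)) atTop (𝓝 (α + γ + β)) :=
        ((ha.add hm).add hb).congr fun n => by ring
      have hp : ∀ᶠ n in atTop, δ n * ((a n : ℝ) + m n + b n) < α + γ + β + 1 :=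
        hs.eventually_lt_const (by linarith)
      rw [tendsto_atTop]
      intro M
      filter_upwards [hp, em, hH.eventually_ge_atTop (100 * (M:ℝ) * (α + γ + β + 1))]
        with n h1 h2 h3
      have hM : (0:ℝ) ≤ M := Nat.cast_nonneg M
      rw [Nat.le_div_iff_mul_le (by omega)]
      have h4 : δ n * ((M:ℝ) * (100 * ((a n : ℝ) + m n + b n))) ≤ δ n * H n := by
        have : δ n * ((M:ℝ) * (100 * ((a n : ℝ) + m n + b n))) =
          100 * (M:ℝ) * (δ n * ((a n : ℝ) + m n + b n)) := by ring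
        rw [this]
        exact (mul_le_mul_of_nonneg_left h1.le (by positivity)).trans h3
      have h5 := le_of_mul_le_mul_left h4 (hδ n)
      exact_mod_cast h5
    have hz : Tendsto (fun n => 2 * (1 - (1/2 : ℝ)^188)^(H n / (100 * (a n + m n + b n)))) atTop
        (𝓝 0) := by
      have h188 : ((1:ℝ)/2)^188 < 1 := pow_lt_one₀ (by norm_num) (by norm_num) (by norm_num)
      have h188' : (0:ℝ) < (1/2:ℝ)^188 := by positivity
      have := ((tendsto_pow_atTop_nhds_zero_of_lt_one (r := 1 - (1/2 : ℝ)^188) (by linarith)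
        (by linarith)).comp hr).const_mul 2
      simpa using this
    have tr : ∀ (E : ℕ → ℕ → ℕ → Set Conf) (EH : ℕ → ℕ → ℕ → ℕ → Set Conf) (v : ℝ),
        (∀ a m b H : ℕ, 1 ≤ m → |perc.real (EH a m b H) - perc.real (E a m b)| ≤
          2 * (1 - (1/2 : ℝ)^188)^(H / (100 * (a + m + b)))) →
        Tendsto (fun n => perc.real (E (a n) (m n) (b n))) atTop (𝓝 v) →
        Tendsto (fun n => perc.real (EH (a n) (m n) (b n) (H n))) atTop (𝓝 v) := by
      intro E EH v hE hv
      have hd : Tendsto (fun n => perc.real (EH (a n) (m n) (b n) (H n)) -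
          perc.real (E (a n) (m n) (b n))) atTop (𝓝 0) := by
        apply squeeze_zero_norm' _ hz
        filter_upwards [em] with n hn
        exact hE _ _ _ _ hn
      have := hv.add hd
      rw [add_zero] at this
      refine this.congr fun n => ?_
      ring
    have g1 := tr (fun a m b => ToWall a m b ∪ ToInner a m b)
      (fun a m b H => ToWallH a m b H ∪ ToInnerH a m b H) _ key l1
    have g2 := tr (fun a m b => ToWall a m b) (fun a m b H => ToWallH a m b H) _ keyL l2
    have g3 := tr (fun a m b => ToInner a m b) (fun a m b H => ToInnerH a m b H) _ keyI l3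
    refine ⟨g1, g2, g3, ((g2.add g3).sub g1).congr fun n => ?_⟩
    exact (interH_eq _ _ _ _).symm

end Pool.Agent.Results.MP_35f495_pr.JointCardyFork
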