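import Mathlib
import Pool.Graph.R_pool_sql_team_seeded_3dad9d7b.NH41.PA.FINA
import Pool.Graph.R_pool_sql_team_seeded_3dad9d7b.NH41.PA.HM
import Pool.Graph.R_pool_sql_team_seeded_3dad9d7b.NH41.PA.UP
import Pool.Graph.R_pool_sql_team_seeded_3dad9d7b.NH41.PA.LO
import Pool.Graph.R_pool_sql_team_seeded_3dad9d7b.NH41.PA.NET
import Pool.Graph.R_pool_sql_team_seeded_3dad9d7b.NH41.PA.PFE
import Pool.Graph.R_pool_sql_team_seeded_3dad9d7b.NH41.CK.HGT
import Pool.Graph.R_pool_sql_team_seeded_3dad9d7b.NH41.CK.COV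
import Pool.Graph.R_seed8.Y989.SD.Fin
import Pool.Graph.R_seed8.Y989.SD.Main

/-!
# MP_35f495_pr: connections between inner points and boundary arcs in smooth domains

Critical bond percolation on `ε ℤ²` (`p = 1/2`) in an arbitrary Jordan domain `D` with `C^(1,α)`
boundary: the probability that a given vertex in the domain is joined inside the domain to a given
arc of the boundary is, up to constants which depend only on the domain,

  `(ε / CR) ^ (5/48) * (harmonic measure) ^ (1/3)`,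

where `CR` is the conformal radius of the domain seen from the vertex, and the harmonic measure is
that of the arc, seen from the vertex. Vertex and arc are arbitrary: the vertex may be at the
distance of order `ε` from the boundary, the arc may be as small as the mesh or the whole boundary,
and they may be as close to each other as one likes.
-/

set_option autoImplicit false

namespace Pool.Agent.Results.MP_35f495_pr.PointToArc

open MeasureTheory

/-- The square lattice: two points of `ℤ²` are adjacent when they differ by one in exactly one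
coordinate. -/
def Z2 : SimpleGraph (ℤ × ℤ) where
  Adj u v := |u.1 - v.1| + |u.2 - v.2| = 1
  symm := ⟨fun u v h => by rw [abs_sub_comm v.1, abs_sub_comm v.2]; exact h⟩
  loopless := ⟨fun u h => by simp at h⟩

/-- Critical bond percolation: every edge of the square lattice is open (`true`) with
probability `1/2`, independently of the other edges. -/
noncomputable def crit : Measure (Z2.edgeSet → Bool) :=
  Measure.infinitePi (fun _ => ProbabilityTheory.bernoulliMeasure true false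
    ⟨1/2, by norm_num, by norm_num⟩)

/-- The position of the vertex `v` of the lattice `ε ℤ²` in the plane. -/
noncomputable def pos (ε : ℝ) (v : ℤ × ℤ) : ℂ := ⟨ε * v.1, ε * v.2⟩

/-- The graph of the open edges of `ε ℤ²` with both endpoints in `D`. -/
def openGraph (ε : ℝ) (D : Set ℂ) (ω : Z2.edgeSet → Bool) : SimpleGraph (ℤ × ℤ) :=
  SimpleGraph.fromEdgeSet {e | (∃ h : e ∈ Z2.edgeSet, ω ⟨e, h⟩ = true) ∧ ∀ v ∈ e, pos ε v ∈ D}

/-- The lattice approximation of the boundary arc `A` of `D`: the vertices of `ε ℤ²` in `D` at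
distance at most `2 ε` from `A`. -/
def near (ε : ℝ) (D A : Set ℂ) : Set (ℤ × ℤ) :=
  {v | pos ε v ∈ D ∧ ∃ z ∈ A, dist (pos ε v) z ≤ 2 * ε}

/-- The probability that an open path of `ε ℤ²` in `D` joins the vertex `x` to `A`. -/
noncomputable def toArc (ε : ℝ) (D : Set ℂ) (x : ℤ × ℤ) (A : Set ℂ) : ℝ :=
  crit.real {ω | ∃ u ∈ near ε D A, (openGraph ε D ω).Reachable x u}

/-- The closed unit disc. -/
def disc : Set ℂ := Metric.closedBall 0 1

/-- `f` parametrizes a Jordan domain with `C^(1,α)` boundary, `0 < α ≤ 1`: it is injective and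
continuous on the closed unit disc, conformal in the open unit disc, and its derivative extends to a
Hölder continuous function `g` without zeros on the closed unit disc. (By the theorem of Kellogg and
Warschawski the Riemann maps onto Jordan domains with `C^(1,α)` boundary, `0 < α < 1`, have this
property.) -/
def Smooth (f : ℂ → ℂ) : Prop :=
  Set.InjOn f disc ∧ ContinuousOn f disc ∧ ∃ (g : ℂ → ℂ) (M α : ℝ), 0 < α ∧ α ≤ 1 ∧
    (∀ z, ‖z‖ < 1 → HasDerivAt f (g z) z) ∧ (∀ z ∈ disc, g z ≠ 0) ∧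
    ∀ z ∈ disc, ∀ w ∈ disc, ‖g z - g w‖ ≤ M * ‖z - w‖ ^ α

/-- The point of the unit circle of argument `θ`. -/
noncomputable def cir (θ : ℝ) : ℂ := Complex.exp (θ * Complex.I)

/-- The boundary arc of the domain `f '' disc` from `f (cir a)` to `f (cir b)`. -/
def arc (f : ℂ → ℂ) (a b : ℝ) : Set ℂ := (fun θ => f (cir θ)) '' Set.Icc a b

/-- The conformal radius of the domain of `f`, seen from the point `f ζ`. -/
noncomputable def CR (f : ℂ → ℂ) (ζ : ℂ) : ℝ := ‖deriv f ζ‖ * (1 - ‖ζ‖ ^ 2)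

/-- The harmonic measure of the arc `arc f a b` of the boundary of the domain of `f`, seen from the
point `f ζ` (the integral of the Poisson kernel of the disc). -/
noncomputable def harm (ζ : ℂ) (a b : ℝ) : ℝ :=
  (2 * Real.pi)⁻¹ * ∫ θ in a..b, (1 - ‖ζ‖ ^ 2) / ‖cir θ - ζ‖ ^ 2

open Y989.SD in
theorem openGraph_adj {f : ℂ → ℂ} {ε : ℝ}
    (h : ∀ v, v ∈ TD f ε ↔ Y989.SD.pos ε v ∈ f '' Y989.SD.disc)
    (ω : Z2.edgeSet → Bool) (u v : ℤ × ℤ) :
    (openGraph ε (f '' disc) ω).Adj u v ↔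
      H974.Adj (H974.FF (H973.ES (TD f ε)) ω : Set H974.Edg) u v := by
  have hs : ∀ w, pos ε w ∈ f '' disc ↔ w ∈ TD f ε := fun w => (h w).symm
  unfold openGraph
  rw [SimpleGraph.fromEdgeSet_adj]
  constructor
  · rintro ⟨⟨⟨h, hω⟩, hV⟩, hne⟩
    have hadj : (H974.openGraph ω).Adj u v := by
      unfold H974.openGraph
      rw [SimpleGraph.fromEdgeSet_adj]
      exact ⟨⟨h, hω⟩, hne⟩
    obtain ⟨e, he, hcase⟩ := (H974.openGraph_adj ω u v).mp hadj
    have hu : u ∈ TD f ε := (hs u).mp (hV u (Sym2.mem_mk_left u v))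
    have hv : v ∈ TD f ε := (hs v).mp (hV v (Sym2.mem_mk_right u v))
    refine ⟨e, ?_, hcase⟩
    rw [Finset.mem_coe, H974.mem_FF, H973.mem_ES]
    refine ⟨?_, he⟩
    rcases hcase with ⟨h1, h2⟩ | ⟨h1, h2⟩
    · rw [h1, h2]; exact ⟨hu, hv⟩
    · rw [h1, h2]; exact ⟨hv, hu⟩
  · rintro ⟨e, he, hcase⟩
    rw [Finset.mem_coe, H974.mem_FF, H973.mem_ES] at he
    have hadj : (H974.openGraph ω).Adj u v := (H974.openGraph_adj ω u v).mpr ⟨e, he.2, hcase⟩
    unfold H974.openGraph at hadj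
    rw [SimpleGraph.fromEdgeSet_adj] at hadj
    refine ⟨⟨hadj.1, ?_⟩, hadj.2⟩
    intro w hw
    rw [hs]
    rcases Sym2.mem_iff.mp hw with rfl | rfl
    · rcases hcase with ⟨h1, h2⟩ | ⟨h1, h2⟩
      · rw [← h1]; exact he.1.1
      · rw [← h2]; exact he.1.2
    · rcases hcase with ⟨h1, h2⟩ | ⟨h1, h2⟩
      · rw [← h2]; exact he.1.2
      · rw [← h1]; exact he.1.1

theorem toArc_eq {f : ℂ → ℂ} {ε : ℝ}
    (h : ∀ v, v ∈ Y989.SD.TD f ε ↔ Y989.SD.pos ε v ∈ f '' Y989.SD.disc) (x : ℤ × ℤ) (a b : ℝ) :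
    toArc ε (f '' disc) x (arc f a b) = NH41.PA.SPL.pp f ε x a b := by
  have hnear : near ε (f '' disc) (arc f a b) = Y989.SD.near f ε a b := by
    ext v
    constructor
    · rintro ⟨h1, z, ⟨θ, ⟨h2, h3⟩, rfl⟩, h4⟩
      exact ⟨(h v).mpr h1, θ, h2, h3, by rw [dist_eq_norm] at h4; exact h4⟩
    · rintro ⟨h1, θ, h2, h3, h4⟩
      exact ⟨(h v).mp h1, f (cir θ), ⟨θ, ⟨h2, h3⟩, rfl⟩, by rw [dist_eq_norm]; exact h4⟩
  have e : toArc ε (f '' disc) x (arc f a b) = (H974.bondLaw H974.hlf).real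
      {ω | ∃ u ∈ Y989.SD.near f ε a b, (openGraph ε (f '' disc) ω).Reachable x u} := by
    unfold toArc
    rw [hnear]
    rfl
  rw [e]
  have key : ∀ (ω : Z2.edgeSet → Bool) (u v : ℤ × ℤ), (openGraph ε (f '' disc) ω).Reachable u v ↔
      H974.Reach (H974.FF (H973.ES (Y989.SD.TD f ε)) ω : Set H974.Edg) u v := by
    intro ω u v
    rw [SimpleGraph.reachable_iff_reflTransGen]
    have : (openGraph ε (f '' disc) ω).Adj =
        H974.Adj (H974.FF (H973.ES (Y989.SD.TD f ε)) ω : Set H974.Edg) := by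
      funext u v
      exact propext (openGraph_adj h ω u v)
    rw [this]
    rfl
  have e2 : {ω : Z2.edgeSet → Bool | ∃ u ∈ Y989.SD.near f ε a b,
        (openGraph ε (f '' disc) ω).Reachable x u} =
      {ω | (NH41.PA.PtA f ε x a b) (H974.FF (H973.ES (Y989.SD.TD f ε)) ω)} := by
    ext ω
    constructor
    · rintro ⟨u, hu, hr⟩
      exact ⟨u, hu, (key ω x u).mp hr⟩
    · rintro ⟨u, hu, hr⟩
      exact ⟨u, hu, (key ω x u).mpr hr⟩
  have h6 := H974.law_event H974.hlf (H973.ES (Y989.SD.TD f ε)) (NH41.PA.PtA f ε x a b)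
  exact (congrArg (fun s => (H974.bondLaw H974.hlf).real s) e2).trans h6

theorem s_PFE : NH41.PA.S_PFE :=
  NH41.PA.PFE.t_PFE Y989.SD.m_GA (NH41.CK.HGT.t_HGT Y989.SD.m_GA)

theorem s_UP : NH41.PA.S_UP :=
  NH41.PA.UP.t_UP Y989.SD.m_WIN Y989.SD.m_GA NH41.PA.NET.t_NET s_PFE

theorem s_LO : NH41.PA.S_LO :=
  NH41.PA.LO.t_LO Y989.SD.m_GA Y989.SD.m_ARM1 NH41.PA.NET.t_NET s_PFE

/-- **Point to arc connections in `C^(1,α)` Jordan domains.** Let `f` be a parametrization of a
Jordan domain `D = f '' disc` with `C^(1,α)` boundary. There are `c, C, ε₀ > 0` such that for every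
mesh `ε ≤ ε₀`, every vertex `x` of `ε ℤ²` whose position is `f ζ`, `‖ζ‖ < 1`, with conformal radius
at least `ε`, and every boundary arc `f (cir [a, b])` of angular length between `ε` and `2 π`, the
probability that critical bond percolation on `ε ℤ²` contains an open path in `D` which joins `x`
to the arc is between `c F` and `C F` with `F = (ε / CR f ζ) ^ (5/48) * harm ζ a b ^ (1/3)`. -/
theorem result (f : ℂ → ℂ) (hf : Smooth f) : ∃ c C ε₀ : ℝ, 0 < c ∧ 0 < C ∧ 0 < ε₀ ∧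
    ∀ ε : ℝ, 0 < ε → ε ≤ ε₀ → ∀ (x : ℤ × ℤ) (ζ : ℂ), ‖ζ‖ < 1 → f ζ = pos ε x → ε ≤ CR f ζ →
      ∀ a b : ℝ, ε ≤ b - a → b - a ≤ 2 * Real.pi →
        c * ((ε / CR f ζ) ^ (5 / 48 : ℝ) * harm ζ a b ^ (1 / 3 : ℝ)) ≤
          toArc ε (f '' disc) x (arc f a b) ∧
        toArc ε (f '' disc) x (arc f a b) ≤
          C * ((ε / CR f ζ) ^ (5 / 48 : ℝ) * harm ζ a b ^ (1 / 3 : ℝ)) := by
  obtain ⟨hi, hc, g, M, α, ha0, ha1, hd, hn, hg⟩ := hf
  have hW : Y989.SD.SmW f g M α := Y989.SD.smW_of ha0 ha1 hi hc hd hn hg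
  obtain ⟨c, C, ε₀, c0, C0, e0, h⟩ := NH41.PA.FINA.main NH41.PA.HM.t_HM s_UP s_LO hW
  refine ⟨c, C, ε₀, c0, C0, e0, ?_⟩
  intro ε hε hε' x ζ hζ hx hcr a b h1 h2
  obtain ⟨h3, h4⟩ := h ε hε hε'
  have hCR : CR f ζ = NH41.CK.cr g ζ := by
    unfold CR NH41.CK.cr
    rw [(hd ζ hζ).deriv]
  rw [toArc_eq h3, hCR]
  rw [hCR] at hcr
  exact h4 x ζ hζ hx hcr a b h1 h2

end Pool.Agent.Results.MP_35f495_pr.PointToArc
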