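import Pool.Agent.H965.Both.Asy

/-!
Critical bond percolation on `ℤ²` (`p = 1/2`, the lattice is rotated by 45 degrees) in slit strips:
how the open cluster of the tip of the slit meets the two sides of the strip. The exact
probability, for all sizes, that the tip is joined to at least one of the two sides, and the
conformally invariant limit of the conditional probabilities that it is joined to the left side,
to the right side, to both sides.
-/

set_option autoImplicit false

namespace Pool.Agent.Results.MP_35f495_pr.SlitTipBothSides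

open MeasureTheory Finset Filter Topology

/-- edges of `ℤ²`: `(u,v,false)` joins `(u,v)` and `(u+1,v)`; `(u,v,true)` joins `(u,v)` and
`(u,v+1)`. -/
abbrev Edge := ℤ × ℤ × Bool

/-- configurations (`true` = open) -/
abbrev Conf := Edge → Bool

/-- `x` and `y` are the two ends of an open edge -/
def OpenAdj (ω : Conf) (x y : ℤ × ℤ) : Prop :=
  (y = (x.1 + 1, x.2) ∧ ω (x.1, x.2, false) = true) ∨
  (x = (y.1 + 1, y.2) ∧ ω (y.1, y.2, false) = true) ∨
  (y = (x.1, x.2 + 1) ∧ ω (x.1, x.2, true) = true) ∨
  (x = (y.1, y.2 + 1) ∧ ω (y.1, y.2, true) = true)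

/-- bond percolation at `p = 1/2`: independent fair coins on the edges -/
noncomputable def perc : Measure Conf :=
  Measure.infinitePi (fun _ : Edge => (PMF.uniformOfFintype Bool).toMeasure)

/-- The column of the vertex `(u,v)` is `u - v`. -/
def col (x : ℤ × ℤ) : ℤ := x.1 - x.2

/-- The height of the vertex `(u,v)` is `u + v`. -/
def height (x : ℤ × ℤ) : ℤ := x.1 + x.2

/-- The vertices of the strip of the columns `0, …, a + b + 2`. -/
def InStrip (a b : ℕ) (x : ℤ × ℤ) : Prop := 0 ≤ col x ∧ col x ≤ a + b + 2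

/-- Open edges of the slit strip: both ends are in the strip, and the edges at the heights `≥ 0`
that touch the column `a + 1` are removed. -/
def SlitAdj (a b : ℕ) (ω : Conf) (x y : ℤ × ℤ) : Prop :=
  OpenAdj ω x y ∧ InStrip a b x ∧ InStrip a b y ∧
    ¬ (0 ≤ height x ∧ 0 ≤ height y ∧ (col x = a + 1 ∨ col y = a + 1))

/-- `x` and `y` are joined by an open path of the slit strip. -/
def Joined (a b : ℕ) (ω : Conf) (x y : ℤ × ℤ) : Prop := Relation.ReflTransGen (SlitAdj a b ω) x y

/-- The tip of the slit (`a` odd): the vertex of the column `a + 1` and the height `0`. -/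
def tip (a : ℕ) : ℤ × ℤ := ((a + 1) / 2, -((a + 1) / 2))

/-- The tip is joined to the left side of the strip (the column `0`). -/
def ToLeft (a b : ℕ) : Set Conf := {ω | ∃ y, col y = 0 ∧ Joined a b ω (tip a) y}

/-- The tip is joined to the right side of the strip (the column `a + b + 2`). -/
def ToRight (a b : ℕ) : Set Conf := {ω | ∃ y, col y = a + b + 2 ∧ Joined a b ω (tip a) y}

/-- rising factorial `s (s+1) ⋯ (s+k-1)` -/
noncomputable def rising (s : ℝ) (k : ℕ) : ℝ := ∏ i ∈ range k, (s + i)

/-- **The cluster of the tip of a slit and the two sides.** The exact probability, for all odd `a`,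
`b`, that the tip is joined to one of the two sides; its decay when `a`, `b → ∞`; and, when
`a / (a + b) → x`, the limits `x ^ (1/3)`, `(1 - x) ^ (1/3)`, `x ^ (1/3) + (1 - x) ^ (1/3) - 1` of
the conditional probabilities, given this event, that the tip is joined to the right side, to the
left side, to both sides. -/
theorem result :
    (∀ a b : ℕ, Odd a → Odd b → perc.real (ToLeft a b ∪ ToRight a b) =
      rising (1/3) (a+1) * rising (1/3) (b+1) * rising (1/2) (a+b+2) /
        (rising (1/2) (a+1) * rising (1/2) (b+1) * rising (1/3) (a+b+2))) ∧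
    (∀ a b : ℕ → ℕ, (∀ n, Odd (a n)) → (∀ n, Odd (b n)) → Tendsto a atTop atTop →
      Tendsto b atTop atTop →
      Tendsto (fun n => perc.real (ToLeft (a n) (b n) ∪ ToRight (a n) (b n)) *
        ((a n : ℝ) * b n / (a n + b n)) ^ ((1:ℝ)/6)) atTop
        (𝓝 (Real.sqrt Real.pi / Real.Gamma (1/3))) ∧
      ∀ x : ℝ, Tendsto (fun n => (a n : ℝ) / (a n + b n)) atTop (𝓝 x) →
        Tendsto (fun n => perc.real (ToRight (a n) (b n)) /
          perc.real (ToLeft (a n) (b n) ∪ ToRight (a n) (b n))) atTop (𝓝 (x ^ ((1:ℝ)/3))) ∧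
        Tendsto (fun n => perc.real (ToLeft (a n) (b n)) /
          perc.real (ToLeft (a n) (b n) ∪ ToRight (a n) (b n))) atTop
          (𝓝 ((1 - x) ^ ((1:ℝ)/3))) ∧
        Tendsto (fun n => perc.real (ToLeft (a n) (b n) ∩ ToRight (a n) (b n)) /
          perc.real (ToLeft (a n) (b n) ∪ ToRight (a n) (b n))) atTop
          (𝓝 (x ^ ((1:ℝ)/3) + (1 - x) ^ ((1:ℝ)/3) - 1))) := by
  have hL : ∀ a b : ℕ, ToLeft a b = Pool.Agent.H965.Both.ToL a b := fun a b => rfl
  have hR : ∀ a b : ℕ, ToRight a b = Pool.Agent.H965.Both.ToR a b := fun a b => rfl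
  have hp : perc = Pool.Agent.H988R2.Perc.perc := rfl
  rw [hp]
  simp only [hL, hR]
  refine ⟨fun a b ha hb => ?_, fun a b ha hb ta tb => ⟨?_, fun x hx => ?_⟩⟩
  · rw [Pool.Agent.H965.Both.real_union a b ha hb,
      Pool.Agent.H965.Both.tipFormula_ris a b ha hb]
    rfl
  · refine (Pool.Agent.H965.Both.union_asymp a b ha hb ta tb).congr fun n => ?_
    rw [Pool.Agent.H965.Both.real_union _ _ (ha n) (hb n)]
  · exact Pool.Agent.H965.Both.ratios a b ha hb ta tb x hx

end Pool.Agent.Results.MP_35f495_pr.SlitTipBothSides
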