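import Pool.Agent.H965.Univ.Fork

/-!
# Exact universality of connection patterns in unions of half-infinite strips

Bond percolation on `ℤ²` with independent edges, in domains which are finite unions of half-infinite
strips (going up or down from the height `0`), in layered environments: in every strip the horizontal
edges of the layer `s` (the edges which join the heights `s` and `s + 1`) are open with probability
`h s` and the vertical ones with probability `1 - h s`, where `h (2n+1) = 1 - h (2n)`; the sequence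
`h` is otherwise arbitrary and every strip has its own one. For `h = 1/2` this is critical bond
percolation on `ℤ²`.

(1), (2): for all these domains (they have arbitrarily many conformal moduli) the joint law of all the
connections of the vertices of height `0` (with wired right walls), and the joint law of all the
crossing events between complementary families of right walls, are exactly the same in all
environments.
(3) In the forked channels (two conformal moduli) Cardy's formula holds in all environments, even if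
the environment depends on the mesh, together with its first correction: the error is exactly of
order `δ^(2/3)`, and its coefficient, which is conformally covariant, does not depend on the
environment either.

Coordinates: the column of the vertex `(u,v)` of `ℤ²` is `u - v`, its height is `u + v` (rotation by
45 degrees).
-/

set_option autoImplicit false

namespace Pool.Agent.Results.MP_35f495_pr.UniversalChannels

open MeasureTheory ProbabilityTheory Filter Topology unitInterval Set

/-- Edges of `ℤ²`: `(u,v,false)` joins `(u,v)` and `(u+1,v)` (horizontal edge); `(u,v,true)` joins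
`(u,v)` and `(u,v+1)` (vertical edge). Both join the heights `u + v` and `u + v + 1`. -/
abbrev Edge := ℤ × ℤ × Bool

/-- configurations (`true` = open) -/
abbrev Conf := Edge → Bool

/-- `x` and `y` are the two ends of an open edge -/
def OpenAdj (ω : Conf) (x y : ℤ × ℤ) : Prop :=
  (y = (x.1 + 1, x.2) ∧ ω (x.1, x.2, false) = true) ∨
  (x = (y.1 + 1, y.2) ∧ ω (y.1, y.2, false) = true) ∨
  (y = (x.1, x.2 + 1) ∧ ω (x.1, x.2, true) = true) ∨
  (x = (y.1, y.2 + 1) ∧ ω (y.1, y.2, true) = true)

/-- bond percolation with independent edges: the edge `e` is open with probability `p e` -/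
noncomputable def perc (p : Edge → I) : Measure Conf :=
  Measure.infinitePi (fun e : Edge => bernoulliMeasure true false (p e))

/-- the parameter `1/2` -/
noncomputable def half : I := ⟨1/2, by norm_num, by norm_num⟩

/-- A half-infinite strip between the columns `left` and `right`: the heights `≥ 0` if `up = true`,
the heights `≤ 0` if `up = false`. -/
structure Strip where
  up : Bool
  left : ℤ
  right : ℤ

/-- `x` is a vertex of the strip -/
def Strip.Mem (S : Strip) (x : ℤ × ℤ) : Prop :=
  S.left ≤ x.1 - x.2 ∧ x.1 - x.2 ≤ S.right ∧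
    (if S.up = true then 0 ≤ x.1 + x.2 else x.1 + x.2 ≤ 0)

/-- `x` is a vertex of the right wall of the strip -/
def Strip.Wall (S : Strip) (x : ℤ × ℤ) : Prop := S.Mem x ∧ x.1 - x.2 = S.right

/-- Admissible families of strips: left walls in odd columns, right walls in even columns, and two
strips which go in the same direction are disjoint. -/
structure Channel {r : ℕ} (S : Fin r → Strip) : Prop where
  left_odd : ∀ j, Odd (S j).left
  right_even : ∀ j, Even (S j).right
  lt : ∀ j, (S j).left < (S j).right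
  sep : ∀ i j, i ≠ j → (S i).up = (S j).up →
    (S i).right < (S j).left ∨ (S j).right < (S i).left

/-- `x` and `y` are joined by an open edge of one of the strips -/
def Adj {r : ℕ} (S : Fin r → Strip) (ω : Conf) (x y : ℤ × ℤ) : Prop :=
  OpenAdj ω x y ∧ ∃ j, (S j).Mem x ∧ (S j).Mem y

/-- The pattern: `(s, -s)` and `(t, -t)`, vertices of height `0`, are connected in the union of the
strips, when all the vertices of the right wall of a strip are identified, for every strip. -/
def Pattern {r : ℕ} (S : Fin r → Strip) (ω : Conf) (s t : ℤ) : Prop :=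
  Relation.EqvGen (fun x y => Adj S ω x y ∨ ∃ j, (S j).Wall x ∧ (S j).Wall y) (s, -s) (t, -t)

/-- There is an open path in the union of the strips from the right wall of a strip of `J` to the
right wall of a strip which is not in `J`. -/
def Joined {r : ℕ} (S : Fin r → Strip) (J : Set (Fin r)) : Set Conf :=
  {ω | ∃ i ∈ J, ∃ j, j ∉ J ∧ ∃ x y, (S i).Wall x ∧ (S j).Wall y ∧
    Relation.ReflTransGen (Adj S ω) x y}

/-- `h` is arbitrary in the even layers, the layer `2n+1` has the value `1 - h (2n)`; and `h` does not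
degenerate at the end of the strip: there are infinitely many layers where it is in some
`[ε, 1 - ε]`. -/
structure Env (S : Strip) (h : ℤ → I) : Prop where
  pair : ∀ n : ℤ, h (2 * n + 1) = σ (h (2 * n))
  ell : ∃ ε : ℝ, 0 < ε ∧ ∃ᶠ n : ℕ in atTop,
    ε ≤ (h (if S.up = true then 2 * n else -(2 * n)) : ℝ) ∧
      (h (if S.up = true then 2 * n else -(2 * n)) : ℝ) ≤ 1 - ε

/-- in the strip, the horizontal edges of the layer `s` have the probability `h s` and the vertical
ones `1 - h s` -/
def Layered (S : Strip) (h : ℤ → I) (p : Edge → I) : Prop := ∀ u v : ℤ,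
  (S.Mem (u, v) → S.Mem (u + 1, v) → p (u, v, false) = h (u + v)) ∧
  (S.Mem (u, v) → S.Mem (u, v + 1) → p (u, v, true) = σ (h (u + v)))

/-! ### forked channels -/

/-- Open edges of the forked channel: both ends have their column in `[-a, m+b]`; the edges with both
ends at height `≥ 0` and both ends in the columns `[0, m]` (the slit) are removed. -/
def FAdj (a m b : ℕ) (ω : Conf) (x y : ℤ × ℤ) : Prop :=
  OpenAdj ω x y ∧ -(a:ℤ) ≤ x.1 - x.2 ∧ x.1 - x.2 ≤ ((m+b : ℕ) : ℤ) ∧
    -(a:ℤ) ≤ y.1 - y.2 ∧ y.1 - y.2 ≤ ((m+b : ℕ) : ℤ) ∧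
    ¬ (0 ≤ x.1 + x.2 ∧ 0 ≤ y.1 + y.2 ∧ 0 ≤ x.1 - x.2 ∧ x.1 - x.2 ≤ m ∧
      0 ≤ y.1 - y.2 ∧ y.1 - y.2 ≤ m)

/-- There is an open path of the forked channel from a vertex of the inner wall of the left arm
(column `0`, height `≥ 0`) to a vertex of the right wall (column `m + b`). -/
def Cross (a m b : ℕ) : Set Conf :=
  {ω | ∃ x y : ℤ × ℤ, x.1 - x.2 = 0 ∧ 0 ≤ x.1 + x.2 ∧ y.1 - y.2 = ((m+b : ℕ) : ℤ) ∧
    Relation.ReflTransGen (FAdj a m b ω) x y}

/-- The layered environment of the forked channels: `h` below the height `0`, `g` in the left arm,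
`g'` in the right arm; the horizontal edges of a layer `s` have the probability `h s` (`g s`, `g' s`)
and the vertical ones `1 - h s` (`1 - g s`, `1 - g' s`). -/
def forkEnv (h g g' : ℤ → I) (e : Edge) : I :=
  let x := if 0 ≤ e.1 + e.2.1 then (if 1 ≤ e.1 - e.2.1 then g' (e.1 + e.2.1) else g (e.1 + e.2.1))
    else h (e.1 + e.2.1)
  if e.2.2 = true then σ x else x

/-- nondegenerate layered environments of the forked channels -/
structure ForkEnv (h g g' : ℤ → I) : Prop where
  h_pair : ∀ n : ℤ, h (2 * n + 1) = σ (h (2 * n))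
  g_pair : ∀ n : ℤ, g (2 * n + 1) = σ (g (2 * n))
  g'_pair : ∀ n : ℤ, g' (2 * n + 1) = σ (g' (2 * n))
  h_ell : ∃ ε : ℝ, 0 < ε ∧ ∃ᶠ n : ℕ in atTop, ε ≤ (h (-(2 * n)) : ℝ) ∧ (h (-(2 * n)) : ℝ) ≤ 1 - ε
  g_ell : ∃ ε : ℝ, 0 < ε ∧ ∃ᶠ n : ℕ in atTop, ε ≤ (g (2 * n) : ℝ) ∧ (g (2 * n) : ℝ) ≤ 1 - ε
  g'_ell : ∃ ε : ℝ, 0 < ε ∧ ∃ᶠ n : ℕ in atTop, ε ≤ (g' (2 * n) : ℝ) ∧ (g' (2 * n) : ℝ) ≤ 1 - ε

/-- Cardy's function: the normalised primitive of `(t(1-t))^(-2/3)` -/
noncomputable def cardy (x : ℝ) : ℝ :=
  (∫ t in (0:ℝ)..x, (t*(1-t))^(-(2:ℝ)/3)) / ∫ t in (0:ℝ)..1, (t*(1-t))^(-(2:ℝ)/3)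

/-- the forked channel: the strip `-α < X < γ + β` without the slit `{0 ≤ X ≤ γ, Y ≥ 0}` -/
def Dom (α γ β : ℝ) : Set ℂ := {w | -α < w.re ∧ w.re < γ + β ∧ (0 ≤ w.re → w.re ≤ γ → w.im < 0)}

/-- `f` is an orientation reversing conformal map of the upper half-plane onto the forked channel,
with the boundary correspondence: left wall, inner wall of the left arm, left corner of the slit,
ledge (bottom of the slit), right corner of the slit, inner wall of the right arm, right wall =
`(-∞,0)`, `(0,x)`, `x`, `(x,x')`, `x'`, `(x',1)`, `(1,∞)`. So the cross-ratio of (inner wall of the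
left arm, right wall) is `x`. -/
structure Uniformizes (α γ β x x' : ℝ) (f : ℂ → ℂ) : Prop where
  /-- the complex conjugate of `f` is holomorphic in the upper half-plane -/
  holo : DifferentiableOn ℂ (fun z => (starRingEnd ℂ) (f z)) {z | 0 < z.im}
  /-- `f` is a bijection of the upper half-plane onto the forked channel -/
  bij : BijOn f {z | 0 < z.im} (Dom α γ β)
  /-- `f` is continuous up to the boundary (without `0` and `1`) -/
  cont : ContinuousOn f {z : ℂ | 0 ≤ z.im ∧ z ≠ 0 ∧ z ≠ 1}
  /-- `(-∞,0)` is mapped to the left wall -/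
  leftWall : BijOn (fun t : ℝ => f t) (Iio 0) {w | w.re = -α}
  /-- `(0,x)` is mapped to the inner wall of the left arm -/
  innerWall : BijOn (fun t : ℝ => f t) (Ioo 0 x) {w | w.re = 0 ∧ 0 < w.im}
  /-- `x` is mapped to the left corner of the slit -/
  corner : f (x : ℂ) = 0
  /-- `(x,x')` is mapped to the ledge -/
  ledge : BijOn (fun t : ℝ => f t) (Ioo x x') {w | w.im = 0 ∧ 0 < w.re ∧ w.re < γ}
  /-- `x'` is mapped to the right corner of the slit -/
  corner' : f (x' : ℂ) = (γ : ℂ)
  /-- `(x',1)` is mapped to the inner wall of the right arm -/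
  innerWall' : BijOn (fun t : ℝ => f t) (Ioo x' 1) {w | w.re = γ ∧ 0 < w.im}
  /-- `(1,∞)` is mapped to the right wall -/
  rightWall : BijOn (fun t : ℝ => f t) (Ioi 1) {w | w.re = γ + β}

/-- the lattice constant `2^(-1/3) Γ(5/6) / (Γ(1/2) Γ(2/3))` -/
noncomputable def cR : ℝ := 2^(-(1:ℝ)/3) * (Real.Gamma (5/6) / (Real.Gamma (1/2) * Real.Gamma (2/3)))

/-! ### transfer -/

open Pool.Agent.H965

/-- the strips of the helper files -/
def tS {r : ℕ} (S : Fin r → Strip) (j : Fin r) : Univ.Strip := ⟨(S j).up, (S j).left, (S j).right⟩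

theorem tS_channel {r : ℕ} {S : Fin r → Strip} (hS : Channel S) : Univ.Channel (tS S) :=
  ⟨hS.left_odd, hS.right_even, hS.lt, hS.sep⟩

theorem perc_half : Pool.Agent.H988R2.Perc.perc = perc (fun _ => half) := Q292.Env.perc_eq_percP

theorem tF {h g g' : ℤ → I} (hn : ForkEnv h g g') : Univ.NDeg h g g' :=
  ⟨hn.h_pair, hn.g_pair, hn.g'_pair, hn.h_ell, hn.g_ell, hn.g'_ell⟩

open Pool.Agent.NH38.Fork in
/-- **Exact universality in unions of half-infinite strips, and Cardy's formula with its sharp rate in
the forked channels, in all layered environments.**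
(1) For every admissible family of strips the law of the pattern is the same in all layered
environments, and in particular for `p = 1/2`.
(2) The same for the joint law of all the crossing events `Joined S J`, `J` a set of strips.
(3) Let `α, γ, β > 0` be the widths of the left arm, of the slit and of the right arm of the forked
channel, `0 < x < x' < 1` be given by `x x' = (α/(α+γ+β))²`, `(1-x)(1-x') = (β/(α+γ+β))²` and let `f`
be the conformal map of the upper half-plane onto the channel; `Λ > 0` is its coefficient at the left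
corner of the slit, `f(t) ~ Λ (t-x)^(3/2)`. For all sequences of layered environments, if the lattice
widths times `δ` tend to `α`, `γ`, `β`, the crossing probability tends to `cardy x`; and if the
lattice widths are within `O(1)` of `α/δ`, `γ/δ`, `β/δ`, then `(P(Cross) - cardy x) / δ^(2/3)` tends
to `cR (2/(3π))^(2/3) (Λ x (1-x))^(-2/3)`. -/
theorem result :
    (∀ (r : ℕ) (S : Fin r → Strip) (h : Fin r → ℤ → I) (p : Edge → I), Channel S →
      (∀ j, Env (S j) (h j)) → (∀ j, Layered (S j) (h j) p) →
      (∀ B : Set (ℤ → ℤ → Prop), MeasurableSet {ω | Pattern S ω ∈ B} ∧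
        (perc p).real {ω | Pattern S ω ∈ B} = (perc (fun _ => half)).real {ω | Pattern S ω ∈ B}) ∧
      (∀ B : Set (Set (Set (Fin r))),
        (perc p).real {ω | {J | ω ∈ Joined S J} ∈ B} =
          (perc (fun _ => half)).real {ω | {J | ω ∈ Joined S J} ∈ B})) ∧
    (∀ α γ β : ℝ, 0 < α → 0 < γ → 0 < β → ∃ x x' : ℝ, 0 < x ∧ x < x' ∧ x' < 1 ∧
      x * x' = (α / (α + γ + β))^2 ∧ (1 - x) * (1 - x') = (β / (α + γ + β))^2 ∧
      ∃ (f : ℂ → ℂ) (Λ : ℝ), Uniformizes α γ β x x' f ∧ 0 < Λ ∧
      Tendsto (fun t : ℝ => (f t).re / (t - x)^((3:ℝ)/2)) (𝓝[>] x) (𝓝 Λ) ∧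
      ∀ (h g g' : ℕ → ℤ → I) (δ : ℕ → ℝ) (a m b : ℕ → ℕ), (∀ n, ForkEnv (h n) (g n) (g' n)) →
        (∀ n, 0 < δ n) → Tendsto δ atTop (𝓝 0) →
        (Tendsto (fun n => δ n * a n) atTop (𝓝 α) → Tendsto (fun n => δ n * m n) atTop (𝓝 γ) →
          Tendsto (fun n => δ n * b n) atTop (𝓝 β) →
          Tendsto (fun n => (perc (forkEnv (h n) (g n) (g' n))).real (Cross (a n) (m n) (b n))) atTop
            (𝓝 (cardy x))) ∧
        (∀ K : ℝ, (∀ n, |δ n * a n - α| ≤ K * δ n) → (∀ n, |δ n * m n - γ| ≤ K * δ n) →
          (∀ n, |δ n * b n - β| ≤ K * δ n) →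
          Tendsto (fun n => ((perc (forkEnv (h n) (g n) (g' n))).real (Cross (a n) (m n) (b n)) -
            cardy x) / (δ n)^((2:ℝ)/3)) atTop
            (𝓝 (cR * (2 / (3 * Real.pi))^((2:ℝ)/3) * (Λ * (x * (1 - x)))^(-(2:ℝ)/3))))) := by
  constructor
  · intro r S h p hS hE hp
    have hS' := tS_channel hS
    have hE' : ∀ j, Univ.EnvOf (tS S j) (h j) := fun j => ⟨(hE j).pair, (hE j).ell⟩
    have hp' : ∀ j, Univ.Layered (tS S j) (h j) p := fun j => hp j
    refine ⟨fun B => ?_, fun B => ?_⟩
    · have := Univ.pattern_law hS' hE' (fun j => Univ.env_half (tS S j)) hp'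
        (fun j => Univ.layered_half (tS S j)) B
      exact this
    · have := Univ.joined_law hS' hE' hp' B
      rw [← perc_half]
      exact this
  · intro α γ β hα hγ hβ
    have hN : 0 < α + γ + β := by positivity
    obtain ⟨f, hf, hL⟩ := t_UGL α γ β hα hγ hβ
    have hRP := Univ.fork_rate α γ β
    have hLim := Univ.fork_lim α γ β hα hγ hβ
    set A : ℝ := (α / (α + γ + β))^2 with hA
    set B : ℝ := (β / (α + γ + β))^2 with hB
    have hr : 0 < α / (α + γ + β) := by positivity
    have hs : 0 < β / (α + γ + β) := by positivity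
    have hrs : α / (α + γ + β) + β / (α + γ + β) < 1 := by
      rw [← add_div, div_lt_one hN]; linarith
    have hA0 : 0 < A := by positivity
    have hB0 : 0 < B := by positivity
    -- the discriminant
    have hd : 0 < (1 + A - B)^2 - 4*A := by
      have e : (1 + A - B)^2 - 4*A = (1 - (α / (α + γ + β) + β / (α + γ + β))) *
          (1 + (α / (α + γ + β) + β / (α + γ + β))) *
          ((1 - (α / (α + γ + β) - β / (α + γ + β))) *
          (1 + (α / (α + γ + β) - β / (α + γ + β)))) := by
        rw [hA, hB]; ring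
      rw [e]
      have h1 : 0 < 1 - (α / (α + γ + β) + β / (α + γ + β)) := by linarith
      have h2 : 0 < 1 + (α / (α + γ + β) + β / (α + γ + β)) := by linarith
      have h3 : 0 < 1 - (α / (α + γ + β) - β / (α + γ + β)) := by linarith
      have h4 : 0 < 1 + (α / (α + γ + β) - β / (α + γ + β)) := by linarith
      positivity
    have hsq : rr A B * rr A B = (1 + A - B)^2 - 4*A := Real.mul_self_sqrt hd.le
    have hrr : 0 < rr A B := Real.sqrt_pos.mpr hd
    have hprod : x1 A B * x2 A B = A := by unfold x1 x2; linear_combination (-1/4) * hsq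
    have hprod' : (1 - x1 A B) * (1 - x2 A B) = B := by
      unfold x1 x2; linear_combination (-1/4) * hsq
    have hlt : x1 A B < x2 A B := by unfold x1 x2; linarith
    have hA1 : A < 1 := by
      rw [hA]; exact pow_lt_one₀ hr.le (by linarith) two_ne_zero
    have hB1 : B < 1 := by
      rw [hB]; exact pow_lt_one₀ hs.le (by linarith) two_ne_zero
    have hx2 : 0 < x2 A B := by
      have : 0 < 1 + A - B := by linarith
      unfold x2; linarith
    have hx1 : 0 < x1 A B := by
      by_contra hc
      push Not at hc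
      have := mul_nonpos_of_nonpos_of_nonneg hc hx2.le
      linarith
    have h1x : 0 < 1 - x1 A B := by
      have : 0 < 1 - A + B := by linarith
      unfold x1; linarith
    have hx2' : x2 A B < 1 := by
      by_contra hc
      push Not at hc
      have := mul_nonpos_of_nonneg_of_nonpos h1x.le (by linarith : 1 - x2 A B ≤ 0)
      linarith
    have hdx : 0 < x2 A B - x1 A B := by linarith
    have hpi := Real.pi_pos
    refine ⟨x1 A B, x2 A B, hx1, hlt, hx2', hprod, hprod', f,
      2 * (α+γ+β) / (3 * Real.pi) * Real.sqrt (x2 A B - x1 A B) / (x1 A B * (1 - x1 A B)),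
      ⟨hf.holo, hf.bij, hf.cont, hf.leftWall, hf.innerWall, hf.corner, hf.ledge,
        hf.corner', hf.innerWall', hf.rightWall⟩, ?_, hL _ _ rfl rfl, ?_⟩
    · have := Real.sqrt_pos.mpr hdx
      positivity
    · intro h g g' δ a m b hn hδ hδ0
      refine ⟨fun ha hm hb => hLim δ a m b h g g' hδ hδ0 ha hm hb fun n => tF (hn n),
        fun K ha hm hb => ?_⟩
      have h := hRP K hα hγ hβ δ a m b h g g' hδ hδ0 ha hm hb fun n => tF (hn n)
      have hx0 : x1 A B * (1 - x1 A B) ≠ 0 := (mul_pos hx1 h1x).ne'
      have e1 : 2 * (α+γ+β) / (3 * Real.pi) * Real.sqrt (x2 A B - x1 A B) /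
          (x1 A B * (1 - x1 A B)) * (x1 A B * (1 - x1 A B)) =
          (2 / (3 * Real.pi)) * (α+γ+β) * Real.sqrt (x2 A B - x1 A B) := by
        rw [div_mul_cancel₀ _ hx0]; ring
      have e2 : ((2 / (3 * Real.pi)) * (α+γ+β) * Real.sqrt (x2 A B - x1 A B))^(-(2:ℝ)/3) =
          (2 / (3 * Real.pi))^(-(2:ℝ)/3) * (α+γ+β)^(-(2:ℝ)/3) *
            (x2 A B - x1 A B)^(-(1:ℝ)/3) := by
        rw [Real.mul_rpow (by positivity) (Real.sqrt_nonneg _), Real.mul_rpow (by positivity) hN.le,
          Real.sqrt_eq_rpow, ← Real.rpow_mul hdx.le]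
        norm_num
      have e3 : (2 / (3 * Real.pi))^((2:ℝ)/3) * (2 / (3 * Real.pi))^(-(2:ℝ)/3) = 1 := by
        rw [← Real.rpow_add (by positivity)]
        norm_num
      have e4 : cR * (2 / (3 * Real.pi))^((2:ℝ)/3) *
          ((2 / (3 * Real.pi))^(-(2:ℝ)/3) * (α+γ+β)^(-(2:ℝ)/3) *
            (x2 A B - x1 A B)^(-(1:ℝ)/3)) =
          Pool.Agent.NH38.Fork.cR * (x2 A B - x1 A B)^(-(1:ℝ)/3) * (α+γ+β)^(-(2:ℝ)/3) := by
        have : cR = Pool.Agent.NH38.Fork.cR := rfl
        rw [this]
        calc _ = Pool.Agent.NH38.Fork.cR * (x2 A B - x1 A B)^(-(1:ℝ)/3) * (α+γ+β)^(-(2:ℝ)/3) *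
              ((2 / (3 * Real.pi))^((2:ℝ)/3) * (2 / (3 * Real.pi))^(-(2:ℝ)/3)) := by ring
          _ = _ := by rw [e3, mul_one]
      rw [e1, e2, e4]
      exact h

end Pool.Agent.Results.MP_35f495_pr.UniversalChannels
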